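import Pool.Agent.helper20.Sz.Sys

/-!
# Planar diagrams have a checkerboard colouring (module SZ-P5, MP_e07446_gt)

Potential theory over the field with two elements: the cochain to be integrated is orthogonal to all
face functions, and by Euler's formula these are all the obstructions.
-/

namespace Pool.Agent.helper20.Sz
namespace P5

/-- the field with two elements -/
abbrev F2 : Type := ZMod 2

/-- ports -/
abbrev Pt (D : LinkDiagram) : Type := Fin D.n × Fin 4

/-- the map `g ↦ g + g ∘ mate` -/
noncomputable def T (D : LinkDiagram) : (Pt D → F2) →ₗ[F2] (Pt D → F2) :=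
  LinearMap.id + LinearMap.funLeft F2 F2 D.mate

/-- the coboundary -/
noncomputable def A (D : LinkDiagram) : (Fin D.n → F2) →ₗ[F2] (Pt D → F2) :=
  LinearMap.funLeft F2 F2 (fun x : Pt D => x.1) +
    LinearMap.funLeft F2 F2 (fun x : Pt D => (D.mate x).1)

theorem T_apply (D : LinkDiagram) (g : Pt D → F2) (x : Pt D) : T D g x = g x + g (D.mate x) := rfl

theorem A_apply (D : LinkDiagram) (c : Fin D.n → F2) (x : Pt D) :
    A D c x = c x.1 + c (D.mate x).1 := rfl

/-- turning at a crossing -/
def phi (D : LinkDiagram) (x : Pt D) : Pt D := ((D.mate x).1, (D.mate x).2 + 1)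

/-- faces -/
abbrev Fc (D : LinkDiagram) : Type :=
  Quot fun x y : Fin D.n × Fin 4 => y = ((D.mate x).1, (D.mate x).2 + 1)

/-- components -/
abbrev Cp (D : LinkDiagram) : Type :=
  Quot fun i j : Fin D.n => ∃ a b : Fin 4, D.mate (i, a) = (j, b)

/-- the face of a port -/
def fc (D : LinkDiagram) (x : Pt D) : Fc D := Quot.mk _ x

theorem fc_phi (D : LinkDiagram) (x : Pt D) : fc D (phi D x) = fc D x := by
  have h : fc D x = fc D (phi D x) := by
    apply Quot.sound
    rfl
  exact h.symm

/-- turning as a permutation -/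
def mateE (D : LinkDiagram) : Equiv.Perm (Pt D) := ⟨D.mate, D.mate, D.mate_mate, D.mate_mate⟩

/-- the next port -/
def succE (D : LinkDiagram) : Equiv.Perm (Pt D) :=
  ⟨fun x => (x.1, x.2 + 1), fun x => (x.1, x.2 - 1), fun x => by simp, fun x => by simp⟩

theorem phi_eq (D : LinkDiagram) (x : Pt D) : phi D x = succE D (mateE D x) := rfl

theorem fc_mate (D : LinkDiagram) (x : Pt D) : fc D (D.mate x) = fc D (succE D x) := by
  have h := fc_phi D (D.mate x)
  rw [← h]
  simp [phi, D.mate_mate, succE]

theorem f2_double (a : F2) : a + a = 0 := by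
  revert a; decide

theorem f2_eq (a b : F2) : a + b = 0 ↔ a = b := by
  revert a b; decide

instance (D : LinkDiagram) : Finite (Fc D) := by unfold Fc; infer_instance

instance (D : LinkDiagram) : Finite (Cp D) := by unfold Cp; infer_instance

/-- the edge functions -/
noncomputable abbrev Ed (D : LinkDiagram) : Submodule F2 (Pt D → F2) := LinearMap.ker (T D)

theorem mem_Ed (D : LinkDiagram) (g : Pt D → F2) : g ∈ Ed D ↔ ∀ x, g (D.mate x) = g x := by
  rw [LinearMap.mem_ker]
  constructor
  · intro h x
    have := congrFun h x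
    rw [T_apply, Pi.zero_apply, f2_eq] at this
    exact this.symm
  · intro h
    funext x
    rw [T_apply, Pi.zero_apply, f2_eq]
    exact (h x).symm

theorem range_T (D : LinkDiagram) : LinearMap.range (T D) = Ed D := by
  apply le_antisymm
  · rintro _ ⟨g, rfl⟩
    rw [mem_Ed]
    intro x
    rw [T_apply, T_apply, D.mate_mate, add_comm]
  · intro g hg
    rw [mem_Ed] at hg
    classical
    let e : Pt D ≃ Fin (Fintype.card (Pt D)) := Fintype.equivFin _
    refine ⟨fun x => if e x < e (D.mate x) then g x else 0, ?_⟩
    funext x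
    rw [T_apply]
    simp only [D.mate_mate]
    have hne : e x ≠ e (D.mate x) := fun h => D.mate_ne x (e.injective h).symm
    rcases lt_or_gt_of_ne hne with h | h
    · rw [if_pos h, if_neg (not_lt.2 h.le), add_zero]
    · rw [if_neg (not_lt.2 h.le), if_pos h, zero_add, hg]

theorem finrank_Ed (D : LinkDiagram) : Module.finrank F2 (Ed D) = 2 * D.n := by
  have h := LinearMap.finrank_range_add_finrank_ker (T D)
  rw [range_T] at h
  have h2 : Module.finrank F2 (Pt D → F2) = 4 * D.n := by
    rw [Module.finrank_fintype_fun_eq_card]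
    simp [Pt, Fintype.card_prod, mul_comm]
  rw [h2] at h
  have h3 : Module.finrank F2 (LinearMap.ker (T D)) = Module.finrank F2 (Ed D) := rfl
  omega

/-- the coboundary with values in the edge functions -/
noncomputable def A' (D : LinkDiagram) : (Fin D.n → F2) →ₗ[F2] Ed D :=
  (A D).codRestrict (Ed D) (by
    intro c
    rw [mem_Ed]
    intro x
    rw [A_apply, A_apply, D.mate_mate, add_comm])

/-- the pairing of face functions and edge functions -/
noncomputable def B (D : LinkDiagram) : (Fc D → F2) →ₗ[F2] Module.Dual F2 (Ed D) :=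
  LinearMap.mk₂ F2 (fun (h : Fc D → F2) (g : Ed D) => ∑ x : Pt D, g.1 x * h (fc D x))
    (by intro a b g; simp [mul_add, Finset.sum_add_distrib])
    (by intro c a g; simp [Finset.mul_sum, mul_left_comm])
    (by intro a g g'; simp [add_mul, Finset.sum_add_distrib])
    (by intro c a g; simp [Finset.mul_sum, mul_assoc])

theorem B_apply (D : LinkDiagram) (h : Fc D → F2) (g : Ed D) :
    B D h g = ∑ x : Pt D, g.1 x * h (fc D x) := rfl

theorem ker_A (D : LinkDiagram) :
    Module.finrank F2 (LinearMap.ker (A D)) ≤ Nat.card (Cp D) := by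
  classical
  have : Fintype (Cp D) := Fintype.ofFinite _
  have hk : ∀ c ∈ LinearMap.ker (A D), ∀ x, c x.1 = c (D.mate x).1 := by
    intro c hc x
    have := congrFun (LinearMap.mem_ker.1 hc) x
    rw [A_apply, Pi.zero_apply, f2_eq] at this
    exact this
  have hk' : ∀ c ∈ LinearMap.ker (A D), ∀ i j : Fin D.n,
      (∃ a b : Fin 4, D.mate (i, a) = (j, b)) → c i = c j := by
    rintro c hc i j ⟨a, b, h⟩
    have := hk c hc (i, a)
    rw [h] at this
    exact this
  have : Module.finrank F2 (LinearMap.ker (A D)) ≤ Module.finrank F2 (Cp D → F2) := by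
    let L : LinearMap.ker (A D) →ₗ[F2] (Cp D → F2) :=
      { toFun := fun c q => Quot.lift c.1 (hk' c.1 c.2) q
        map_add' := by
          intro a b; funext q
          induction q using Quot.ind
          rfl
        map_smul' := by
          intro a b; funext q
          induction q using Quot.ind
          rfl }
    apply LinearMap.finrank_le_finrank_of_injective (f := L)
    intro a b hab
    apply Subtype.ext
    funext i
    exact congrFun hab (Quot.mk _ i)
  rw [Module.finrank_fintype_fun_eq_card, ← Nat.card_eq_fintype_card] at this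
  exact this

theorem ker_B_inv (D : LinkDiagram) (h : Fc D → F2) (hh : h ∈ LinearMap.ker (B D)) (x : Pt D) :
    h (fc D x) = h (fc D (D.mate x)) := by
  classical
  let g : Pt D → F2 := fun y => if y = x ∨ y = D.mate x then 1 else 0
  have hg : g ∈ Ed D := by
    rw [mem_Ed]
    intro y
    have : (D.mate y = x ∨ D.mate y = D.mate x) ↔ (y = x ∨ y = D.mate x) := by
      constructor
      · rintro (h | h)
        · right; rw [← h, D.mate_mate]
        · left; rw [← D.mate_mate y, h, D.mate_mate]
      · rintro (h | h)
        · right; rw [h]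
        · left; rw [h, D.mate_mate]
    simp only [g, this]
  have h1 : B D h ⟨g, hg⟩ = 0 := by
    rw [LinearMap.mem_ker.1 hh]; rfl
  rw [B_apply] at h1
  have h2 : ∑ y : Pt D, g y * h (fc D y) = h (fc D x) + h (fc D (D.mate x)) := by
    have hx : x ≠ D.mate x := (D.mate_ne x).symm
    rw [← Finset.sum_subset (Finset.subset_univ ({x, D.mate x} : Finset (Pt D)))]
    · rw [Finset.sum_pair hx]
      simp [g]
    · intro y _ hy
      have : ¬ (y = x ∨ y = D.mate x) := by simpa using hy
      simp only [g, if_neg this, zero_mul]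
  rw [h2, f2_eq] at h1
  exact h1

theorem ker_B_succ (D : LinkDiagram) (h : Fc D → F2) (hh : h ∈ LinearMap.ker (B D)) (x : Pt D) :
    h (fc D (succE D x)) = h (fc D x) := by
  rw [← fc_mate, ← ker_B_inv D h hh x]

theorem ker_B_zero (D : LinkDiagram) (h : Fc D → F2) (hh : h ∈ LinearMap.ker (B D)) (i : Fin D.n)
    (a : Fin 4) : h (fc D (i, a)) = h (fc D (i, 0)) := by
  have h0 := ker_B_succ D h hh (i, 0)
  have h1 := ker_B_succ D h hh (i, 1)
  have h2 := ker_B_succ D h hh (i, 2)
  simp only [succE, Equiv.coe_fn_mk] at h0 h1 h2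
  fin_cases a
  · rfl
  · exact h0
  · exact h1.trans h0
  · exact (h2.trans h1).trans h0

theorem ker_B (D : LinkDiagram) :
    Module.finrank F2 (LinearMap.ker (B D)) ≤ Nat.card (Cp D) := by
  refine le_trans ?_ (ker_A D)
  let L : LinearMap.ker (B D) →ₗ[F2] LinearMap.ker (A D) :=
    { toFun := fun h => ⟨fun i => h.1 (fc D (i, 0)), by
        rw [LinearMap.mem_ker]
        funext x
        rw [A_apply, Pi.zero_apply, f2_eq]
        rw [← ker_B_zero D h.1 h.2 x.1 x.2, ← ker_B_zero D h.1 h.2 (D.mate x).1 (D.mate x).2]
        exact ker_B_inv D h.1 h.2 x⟩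
      map_add' := by intro a b; rfl
      map_smul' := by intro a b; rfl }
  apply LinearMap.finrank_le_finrank_of_injective (f := L)
  intro a b hab
  apply Subtype.ext
  funext q
  induction q using Quot.ind with
  | mk x =>
    have h1 := congrFun (congrArg Subtype.val hab) x.1
    have h2 : a.1 (fc D (x.1, 0)) = b.1 (fc D (x.1, 0)) := h1
    rw [← ker_B_zero D a.1 a.2 x.1 x.2, ← ker_B_zero D b.1 b.2 x.1 x.2] at h2
    exact h2

/-- orthogonality of coboundaries and face functions -/
theorem A_orth (D : LinkDiagram) (c : Fin D.n → F2) (h : Fc D → F2) : B D h (A' D c) = 0 := by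
  rw [B_apply]
  have h1 : ∀ x, (A' D c).1 x * h (fc D x) =
      c x.1 * h (fc D x) + c (D.mate x).1 * h (fc D x) := by
    intro x
    have : (A' D c).1 x = A D c x := rfl
    rw [this, A_apply, add_mul]
  rw [Finset.sum_congr rfl (fun x _ => h1 x), Finset.sum_add_distrib]
  have h2 : ∑ x : Pt D, c (D.mate x).1 * h (fc D x) = ∑ x : Pt D, c x.1 * h (fc D x) := by
    rw [← Equiv.sum_comp (mateE D) (fun x => c (D.mate x).1 * h (fc D x))]
    have : ∀ x, c (D.mate (mateE D x)).1 * h (fc D (mateE D x)) =
        c (succE D x).1 * h (fc D (succE D x)) := by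
      intro x
      have e1 : D.mate (mateE D x) = x := D.mate_mate x
      have e2 : fc D (mateE D x) = fc D (succE D x) := fc_mate D x
      rw [e1, e2]
      rfl
    rw [Finset.sum_congr rfl (fun x _ => this x)]
    exact Equiv.sum_comp (succE D) (fun x => c x.1 * h (fc D x))
  rw [h2]
  exact f2_double _

/-- parity of the port -/
def par (D : LinkDiagram) (x : Pt D) : F2 := ((x.2 : ℕ) : F2)

/-- the cochain to be integrated -/
noncomputable def om (D : LinkDiagram) : Ed D :=
  ⟨fun x => 1 + par D x + par D (D.mate x), by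
    rw [mem_Ed]
    intro x
    rw [D.mate_mate]; ring⟩

theorem par_succ (D : LinkDiagram) (x : Pt D) : par D (succE D x) = par D x + 1 := by
  obtain ⟨i, a⟩ := x
  have : ∀ a : Fin 4, (((a + 1 : Fin 4) : ℕ) : F2) = ((a : ℕ) : F2) + 1 := by decide
  exact this a

theorem om_orth (D : LinkDiagram) (h : Fc D → F2) : B D h (om D) = 0 := by
  rw [B_apply]
  have h1 : ∀ x, (om D).1 x * h (fc D x) =
      par D x * h (fc D x) + par D (phi D x) * h (fc D (phi D x)) := by
    intro x
    rw [fc_phi, phi_eq, par_succ]
    have : (om D).1 x = 1 + par D x + par D (D.mate x) := rfl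
    rw [this]
    have e : par D (mateE D x) = par D (D.mate x) := rfl
    rw [e]; ring
  rw [Finset.sum_congr rfl (fun x _ => h1 x), Finset.sum_add_distrib]
  have h2 : ∑ x : Pt D, par D (phi D x) * h (fc D (phi D x)) = ∑ x : Pt D, par D x * h (fc D x) :=
    Equiv.sum_comp ((mateE D).trans (succE D)) (fun x => par D x * h (fc D x))
  rw [h2]
  exact f2_double _

theorem om_mem (D : LinkDiagram) : om D ∈ LinearMap.range (A' D) := by
  classical
  have : Fintype (Fc D) := Fintype.ofFinite _
  have h1 : LinearMap.range (A' D) ≤ (LinearMap.range (B D)).dualCoannihilator := by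
    rintro _ ⟨c, rfl⟩
    rw [Submodule.mem_dualCoannihilator]
    rintro _ ⟨h, rfl⟩
    exact A_orth D c h
  have h2 : om D ∈ (LinearMap.range (B D)).dualCoannihilator := by
    rw [Submodule.mem_dualCoannihilator]
    rintro _ ⟨h, rfl⟩
    exact om_orth D h
  have h3 : Module.finrank F2 (LinearMap.range (B D)).dualCoannihilator ≤
      Module.finrank F2 (LinearMap.range (A' D)) := by
    have e1 := Subspace.finrank_add_finrank_dualCoannihilator_eq (LinearMap.range (B D))
    have e2 := LinearMap.finrank_range_add_finrank_ker (B D)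
    have e3 := LinearMap.finrank_range_add_finrank_ker (A' D)
    have e4 := finrank_Ed D
    have e5 := ker_B D
    have e6 := ker_A D
    have e7 : LinearMap.ker (A' D) = LinearMap.ker (A D) := LinearMap.ker_codRestrict _ _ _
    have e8 := D.planar
    have e9 : Nat.card (Fc D) = D.n + 2 * Nat.card (Cp D) := e8
    rw [Module.finrank_fintype_fun_eq_card] at e2 e3
    rw [Nat.card_eq_fintype_card] at e9
    rw [e7] at e3
    rw [Fintype.card_fin] at e3
    omega
  rw [Submodule.eq_of_le_of_finrank_le h1 h3]
  exact h2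

theorem exists_checker (D : LinkDiagram) : ∃ o, D.Checker o := by
  obtain ⟨c, hc⟩ := om_mem D
  have hc' : ∀ x, c x.1 + c (D.mate x).1 = 1 + par D x + par D (D.mate x) := by
    intro x
    exact congrFun (congrArg Subtype.val hc) x
  refine ⟨fun x => decide (c x.1 + par D x = 1), ?_, ?_⟩
  · intro i a
    have h := par_succ D (i, a)
    have e : par D (i, a + 1) = par D (i, a) + 1 := h
    simp only [e]
    have : ∀ p q : F2, decide (p + (q + 1) = 1) = !decide (p + q = 1) := by decide
    exact this _ _
  · intro x
    have h := hc' x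
    have : ∀ p q r s : F2, p + q = 1 + r + s → decide (q + s = 1) = !decide (p + r = 1) := by decide
    exact this _ _ _ _ h

end P5
end Pool.Agent.helper20.Sz
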